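import Pool.Agent.MP_961ca8_al.H15.Main

/-!
Weak F-regularity does not localize, already for local rings essentially of finite type over the
prime field: for every prime `p` there are a finitely generated `F_p`-algebra `A` that is a domain
and a maximal ideal `m` such that every ideal of `A_m` is tightly closed while some localization of
`A_m` has an ideal that is not tightly closed.
-/

namespace Pool.Agent.Results.MP_961ca8_al.ExcellentCase

open Pool.Agent.MP_961ca8_al.H18

theorem result : ∀ p : ℕ, p.Prime →
    ∃ (A : Type) (_ : CommRing A) (_ : IsDomain A) (_ : Algebra (ZMod p) A)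
      (_ : Algebra.FiniteType (ZMod p) A) (m : Ideal A) (_ : m.IsMaximal),
      IsNoetherianRing (Localization.AtPrime m) ∧ CharP (Localization.AtPrime m) p ∧
        WeaklyFRegular p (Localization.AtPrime m) ∧ ¬ FRegular p (Localization.AtPrime m) :=
  fun p hp => @Pool.Agent.MP_961ca8_al.H15.main p ⟨hp⟩

end Pool.Agent.Results.MP_961ca8_al.ExcellentCase
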