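import Pool.Agent.MP_961ca8_al.H3.Final

open Pool.Agent.MP_961ca8_al.H3

namespace Pool.Agent.Results.MP_961ca8_al.QuadraticGrowth

/-- Condition (LC) fails for a one-dimensional primary ideal of an F-regular local ring. -/
theorem result : ∃ (R : Type) (_ : CommRing R) (_ : IsNoetherianRing R) (_ : IsLocalRing R)
    (_ : CharP R 2), FRegular 2 R ∧ ∃ I : Ideal R, I.IsPrimary ∧
      ringKrullDim (R ⧸ I.radical) = 1 ∧
      ∃ C : ℕ, ∀ e n : ℕ, Kills n (frobPow (2 ^ e) I) → (2 ^ e) ^ 2 ≤ n + C * 2 ^ e :=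
  final

end Pool.Agent.Results.MP_961ca8_al.QuadraticGrowth
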